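import Pool.Agent.Work.MP_683e5e_co.Main

-- merged part: Pool.Agent.Work.MP_683e5e_co.Hedge.Sparse
section
/-! A sparse form of the typed Ramsey theorem, by the iterated partite construction. -/

set_option autoImplicit false

namespace Pool.Agent.Work.MP_683e5e_co.Hedge

open Classical Combinatorics Pool.Agent.Lib.Ramsey Set

variable {L V N W K : Type} {s : L}

/-- The colouring is proper on the edges of type `s` inside `X`. -/
def Col (A : L → SimpleGraph V) (s : L) (X : Set V) (φ : V → K) : Prop :=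
  ∀ u ∈ X, ∀ v ∈ X, (A s).Adj u v → φ u ≠ φ v

/-- There are proper colourings, with any pattern at any edge of another type. -/
def PP (A : L → SimpleGraph V) (s : L) (K : Type) (X : Set V) : Prop :=
  (∃ φ : V → K, Col A s X φ) ∧ ∀ u ∈ X, ∀ v ∈ X, ∀ σ, σ ≠ s → (A σ).Adj u v → ∀ b : Prop,
    ∃ φ : V → K, Col A s X φ ∧ (φ u = φ v ↔ b)

/-- All small sets have the property `PP`. -/
def Loc (A : L → SimpleGraph V) (s : L) (K : Type) (k : ℕ) : Prop :=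
  ∀ X : Set V, X.ncard ≤ k → PP A s K X

/-- The typed arrow. -/
def Ar (κ : Type) (C : L → SimpleGraph W) (B : L → SimpleGraph V) : Prop :=
  ∀ χ : W → W → κ, (∀ a b, χ a b = χ b a) → ∃ φ : V → W, Function.Injective φ ∧
    (∀ σ u v, (C σ).Adj (φ u) (φ v) ↔ (B σ).Adj u v) ∧
    ∃ c : L → κ, ∀ σ u v, (B σ).Adj u v → χ (φ u) (φ v) = c σ

theorem PP.pull {A : L → SimpleGraph V} {D : L → SimpleGraph N} (π : V → N) {X : Set V}
    {Y : Set N} (hY : MapsTo π X Y)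
    (hπ : ∀ σ, ∀ u ∈ X, ∀ v ∈ X, (A σ).Adj u v → (D σ).Adj (π u) (π v)) (h : PP D s K Y) :
    PP A s K X := by
  have k : ∀ φ : N → K, Col D s Y φ → Col A s X (φ ∘ π) := fun φ hφ u hu v hv a =>
    hφ _ (hY hu) _ (hY hv) (hπ s u hu v hv a)
  obtain ⟨⟨φ, h1⟩, h2⟩ := h
  refine ⟨⟨_, k φ h1⟩, fun u hu v hv σ hσ a b => ?_⟩
  obtain ⟨ψ, h3, h4⟩ := h2 _ (hY hu) _ (hY hv) σ hσ (hπ σ u hu v hv a) b
  exact ⟨_, k ψ h3, h4⟩

theorem exists_perm {a b a' b' : K} (h : a = b ↔ a' = b') :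
    ∃ τ : Equiv.Perm K, τ a = a' ∧ τ b = b' := by
  refine ⟨(Equiv.swap a a').trans (Equiv.swap (Equiv.swap a a' b) b'), ?_, by simp⟩
  rw [Equiv.trans_apply, Equiv.swap_apply_left]
  by_cases e : a = b
  · rw [← e, ← h.1 e, Equiv.swap_apply_left, Equiv.swap_self, Equiv.refl_apply]
  · refine Equiv.swap_apply_of_ne_of_ne (fun e' => e ?_) fun e' => e (h.2 e')
    exact (Equiv.swap a a').injective ((Equiv.swap_apply_left a a').trans e')

theorem PP.ext {A : L → SimpleGraph V} {X₁ X₂ : Set V} {a b : V}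
    (h0 : ∀ z ∈ X₁, z ∈ X₂ → z = a ∨ z = b)
    (hab : a = b ∨ ((a ∈ X₁ ∧ b ∈ X₁) ∧ (a ∈ X₂ ∧ b ∈ X₂) ∧ ∃ θ, (A θ).Adj a b))
    (h : PP A s K X₂) {φ₁ : V → K} (h1 : Col A s X₁ φ₁) :
    ∃ φ₂ : V → K, Col A s X₂ φ₂ ∧ ∀ z ∈ X₁, z ∈ X₂ → φ₂ z = φ₁ z := by
  obtain ⟨φ, h2, h3⟩ : ∃ φ : V → K, Col A s X₂ φ ∧ (φ a = φ b ↔ φ₁ a = φ₁ b) := by
    obtain ⟨φ, h2⟩ := h.1
    rcases hab with rfl | ⟨m1, m2, θ, e⟩
    · exact ⟨φ, h2, by simp⟩
    · by_cases hθ : θ = s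
      · subst hθ
        exact ⟨φ, h2, iff_of_false (h2 a m2.1 b m2.2 e) (h1 a m1.1 b m1.2 e)⟩
      · exact h.2 a m2.1 b m2.2 θ hθ e _
  obtain ⟨τ, t1, t2⟩ := exists_perm h3
  refine ⟨τ ∘ φ, fun u hu v hv e e' => h2 u hu v hv e (τ.injective e'), fun z z1 z2 => ?_⟩
  rcases h0 z z1 z2 with rfl | rfl
  exacts [t1, t2]

theorem PP.glue {A A' : L → SimpleGraph V} (hA : ∀ σ, A σ ≤ A' σ) {X X₁ X₂ : Set V} {a b : V}
    (hX : ∀ σ, ∀ u ∈ X, ∀ v ∈ X, (A σ).Adj u v → (u ∈ X₁ ∧ v ∈ X₁) ∨ (u ∈ X₂ ∧ v ∈ X₂))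
    (h0 : ∀ z ∈ X₁, z ∈ X₂ → z = a ∨ z = b)
    (hab : a = b ∨ ((a ∈ X₁ ∧ b ∈ X₁) ∧ (a ∈ X₂ ∧ b ∈ X₂) ∧ ∃ θ, (A' θ).Adj a b))
    (h₁ : PP A' s K X₁) (h₂ : PP A' s K X₂) : PP A s K X := by
  have comb : ∀ φ₁ φ₂ : V → K, Col A' s X₁ φ₁ → Col A' s X₂ φ₂ →
      (∀ z ∈ X₁, z ∈ X₂ → φ₂ z = φ₁ z) →
      ∃ φ : V → K, Col A s X φ ∧ (∀ z ∈ X₁, φ z = φ₁ z) ∧ ∀ z ∈ X₂, φ z = φ₂ z := by
    intro φ₁ φ₂ c1 c2 he
    have e1 : ∀ z ∈ X₁, (if z ∈ X₁ then φ₁ z else φ₂ z) = φ₁ z := fun z hz => if_pos hz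
    have e2 : ∀ z ∈ X₂, (if z ∈ X₁ then φ₁ z else φ₂ z) = φ₂ z := fun z hz => by
      split_ifs with h
      exacts [(he z h hz).symm, rfl]
    refine ⟨fun z => if z ∈ X₁ then φ₁ z else φ₂ z, fun u hu v hv e => ?_, e1, e2⟩
    rcases hX s u hu v hv e with ⟨m1, m2⟩ | ⟨m1, m2⟩
    · simp only [e1 u m1, e1 v m2]
      exact c1 u m1 v m2 (hA s e)
    · simp only [e2 u m1, e2 v m2]
      exact c2 u m1 v m2 (hA s e)
  refine ⟨?_, fun u hu v hv σ hσ e p => ?_⟩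
  · obtain ⟨φ₁, c1⟩ := h₁.1
    obtain ⟨φ₂, c2, he⟩ := h₂.ext h0 hab c1
    exact (comb φ₁ φ₂ c1 c2 he).imp fun _ h => h.1
  · rcases hX σ u hu v hv e with ⟨m1, m2⟩ | ⟨m1, m2⟩
    · obtain ⟨φ₁, c1, hp⟩ := h₁.2 u m1 v m2 σ hσ (hA σ e) p
      obtain ⟨φ₂, c2, he⟩ := h₂.ext h0 hab c1
      obtain ⟨φ, c, e1, -⟩ := comb φ₁ φ₂ c1 c2 he
      exact ⟨φ, c, by rw [e1 u m1, e1 v m2, hp]⟩
    · obtain ⟨φ₂, c2, hp⟩ := h₂.2 u m1 v m2 σ hσ (hA σ e) p
      obtain ⟨φ₁, c1, he⟩ := h₁.ext (fun z z2 z1 => h0 z z1 z2)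
        (hab.imp_right fun h => ⟨h.2.1, h.1, h.2.2⟩) c2
      obtain ⟨φ, c, -, e2⟩ := comb φ₁ φ₂ c1 c2 fun z z1 z2 => (he z z2 z1).symm
      exact ⟨φ, c, by rw [e2 u m1, e2 v m2, hp]⟩

theorem two_of_inj [Nonempty V] {π : V → N} {Z : Set V} (hi : InjOn π Z) {x y : N}
    (hZ : ∀ z ∈ Z, π z = x ∨ π z = y) :
    ∃ a b, (∀ z ∈ Z, z = a ∨ z = b) ∧ (a = b ∨ (a ∈ Z ∧ b ∈ Z ∧ π a = x ∧ π b = y)) := by
  by_cases h : (∃ a ∈ Z, π a = x) ∧ ∃ b ∈ Z, π b = y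
  · obtain ⟨⟨a, ha, e1⟩, b, hb, e2⟩ := h
    exact ⟨a, b, fun z hz => (hZ z hz).imp (fun e => hi hz ha (e.trans e1.symm))
      fun e => hi hz hb (e.trans e2.symm), Or.inr ⟨ha, hb, e1, e2⟩⟩
  · rcases Z.eq_empty_or_nonempty with rfl | ⟨a, ha⟩
    · exact ⟨Classical.arbitrary V, _, fun z hz => hz.elim, Or.inl rfl⟩
    · refine ⟨a, a, fun z hz => Or.inl (hi hz ha ?_), Or.inl rfl⟩
      rcases hZ z hz with e | e <;> rcases hZ a ha with e' | e'
      · rw [e, e']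
      · exact absurd ⟨⟨z, hz, e⟩, a, ha, e'⟩ h
      · exact absurd ⟨⟨a, ha, e'⟩, z, hz, e⟩ h
      · rw [e, e']

/-- Splitting over an edge of the host. -/
theorem split [Finite V] [Nonempty V] {A : L → SimpleGraph V} {D : L → SimpleGraph N} {k : ℕ}
    (hD : Loc D s K k) {π : V → N} (hπ : ∀ σ u v, (A σ).Adj u v → (D σ).Adj (π u) (π v))
    {X X₁ X₂ : Set V} (hi : InjOn π X) (s1 : X₁ ⊆ X) (k1 : X₁.ncard ≤ k) (k2 : X₂.ncard ≤ k)
    (hX : ∀ σ, ∀ u ∈ X, ∀ v ∈ X, (A σ).Adj u v → (u ∈ X₁ ∧ v ∈ X₁) ∨ (u ∈ X₂ ∧ v ∈ X₂))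
    {x y : N} {θ : L} (hxy : (D θ).Adj x y) (h0 : ∀ z ∈ X₁, z ∈ X₂ → π z = x ∨ π z = y) :
    PP A s K X := by
  obtain ⟨a, b, h1, h2⟩ := two_of_inj (Z := X₁ ∩ X₂) (hi.mono fun z hz => s1 hz.1)
    fun z hz => h0 z hz.1 hz.2
  have p : ∀ Y : Set V, Y.ncard ≤ k → PP (fun σ => (D σ).comap π) s K Y := fun Y hY =>
    PP.pull π (mapsTo_image π Y) (fun _ _ _ _ _ e => e)
      (hD _ ((ncard_image_le (toFinite Y)).trans hY))
  refine PP.glue (A' := fun σ => (D σ).comap π) (fun σ u v e => hπ σ u v e) hX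
    (fun z z1 z2 => h1 z ⟨z1, z2⟩) (h2.imp_right fun ⟨m1, m2, e1, e2⟩ =>
      ⟨⟨m1.1, m2.1⟩, ⟨m1.2, m2.2⟩, θ, ?_⟩) (p _ k1) (p _ k2)
  rw [SimpleGraph.comap_adj, e1, e2]
  exact hxy

/-- Pictures over the host `D` without bad small sets. -/
def Nice (D : L → SimpleGraph N) (s : L) (K : Type) (k : ℕ) (P : Pic L N) : Prop :=
  (∀ σ u v, (P.A σ).Adj u v → (D σ).Adj (P.π u) (P.π v)) ∧ Loc P.A s K (k + 1)

theorem nA_loc {D : L → SimpleGraph N} {k : ℕ} (hk : 2 ≤ k) (hD : Loc D s K k) {P : Pic L N}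
    (hP : Nice D s K k P) {x y : N} {θ : L} (hxy : (D θ).Adj x y) {ι : Type} (i0 : ι)
    [Finite (NV P x y θ ι)] [Nonempty (NV P x y θ ι)] :
    Loc (nA (P := P) (θ := θ) hxy.ne ι) s K (k + 1) := by
  intro X hX
  have := P.ne
  have hπ : ∀ σ u v, (nA (P := P) (θ := θ) hxy.ne ι σ).Adj u v →
      (D σ).Adj (nproj P x y θ i0 u) (nproj P x y θ i0 v) := by
    rintro σ _ _ ⟨ℓ, u, v, rfl, rfl, h⟩
    rw [nproj_psi hxy.ne, nproj_psi hxy.ne]
    exact hP.1 σ u v h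
  by_cases h1 : (nproj P x y θ i0 '' X).ncard ≤ k
  · exact PP.pull _ (mapsTo_image _ X) (fun σ u _ v _ e => hπ σ u v e) (hD _ h1)
  have hi : InjOn (nproj P x y θ i0) X := injOn_of_ncard_image_eq
    (le_antisymm (ncard_image_le (toFinite X)) (by omega)) (toFinite X)
  have lt : ∀ Y : Set (NV P x y θ ι), Y ⊆ X → (∃ z ∈ X, z ∉ Y) → Y.ncard ≤ k := by
    rintro Y h2 ⟨z, z1, z2⟩
    have := ncard_lt_ncard (⟨h2, fun h => z2 (h z1)⟩ : Y ⊂ X) (toFinite X)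
    omega
  obtain ⟨z, hz, z1, z2⟩ : ∃ z ∈ X, nproj P x y θ i0 z ≠ x ∧ nproj P x y θ i0 z ≠ y := by
    by_contra hc
    refine h1 (((ncard_le_ncard (t := {x, y}) ?_ (toFinite _)).trans
      (ncard_pair hxy.ne).le).trans hk)
    rintro _ ⟨z, hz, rfl⟩
    by_contra h
    exact hc ⟨z, hz, not_or.1 h⟩
  by_cases h2 : ∃ ℓ w, psi P x y θ ℓ w = z
  · obtain ⟨ℓ, w, rfl⟩ := h2
    by_cases h3 : X ⊆ range (psi P x y θ ℓ)
    · have li := Function.leftInverse_invFun (psi_inj hxy.ne ℓ)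
      refine PP.pull (Function.invFun (psi P x y θ ℓ)) (mapsTo_image _ X) ?_
        (hP.2 _ ((ncard_image_le (toFinite X)).trans hX))
      intro σ u hu v hv e
      obtain ⟨u, rfl⟩ := h3 hu
      obtain ⟨v, rfl⟩ := h3 hv
      rw [li u, li v]
      exact (nA_adj hxy.ne ℓ σ u v).1 e
    · obtain ⟨z', m1, m2⟩ := not_subset.1 h3
      refine split hD hπ hi (X₁ := X ∩ range (psi P x y θ ℓ))
        (X₂ := {a | a ∈ X ∧ (a ∉ range (psi P x y θ ℓ) ∨ nproj P x y θ i0 a = x ∨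
          nproj P x y θ i0 a = y)}) inter_subset_left
        (lt _ inter_subset_left ⟨z', m1, fun h => m2 h.2⟩)
        (lt _ (fun a h => h.1) ⟨_, hz, fun h => h.2.elim (fun h => h ⟨w, rfl⟩) (not_or.2 ⟨z1, z2⟩)⟩)
        ?_ hxy fun a a1 a2 => a2.2.resolve_left fun h => h a1.2
      rintro σ _ hu _ hv ⟨ℓ', u, v, rfl, rfl, -⟩
      by_cases e : ℓ' = ℓ
      · subst e
        exact Or.inl ⟨⟨hu, u, rfl⟩, hv, v, rfl⟩
      · have o : ∀ a, psi P x y θ ℓ' a ∉ range (psi P x y θ ℓ) ∨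
            nproj P x y θ i0 (psi P x y θ ℓ' a) = x ∨ nproj P x y θ i0 (psi P x y θ ℓ' a) = y := by
          intro a
          rw [nproj_psi hxy.ne]
          by_contra hc
          simp only [not_or, not_not] at hc
          obtain ⟨⟨a', e'⟩, c1, c2⟩ := hc
          exact e (line_eq_of_out hxy.ne e'.symm c1 c2)
        exact Or.inr ⟨⟨hu, o u⟩, hv, o v⟩
  · refine split hD hπ hi (X₁ := ∅) (X₂ := X \ {z}) (empty_subset _) (by simp)
      (lt _ sdiff_subset ⟨z, hz, fun h => h.2 rfl⟩) ?_ hxy fun a a1 => a1.elim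
    rintro σ _ hu _ hv ⟨ℓ', u, v, rfl, rfl, -⟩
    exact Or.inr ⟨⟨hu, fun e => h2 ⟨ℓ', u, e⟩⟩, hv, fun e => h2 ⟨ℓ', v, e⟩⟩

theorem step' (κ : Type) [Finite κ] [Nonempty κ] {D : L → SimpleGraph N} {k : ℕ} (hk : 2 ≤ k)
    (hD : Loc D s K k) (P : Pic L N) (hP : Nice D s K k P) (x y : N) (θ : L) :
    ∃ Q : Pic L N, Irr Q.A P.A ∧ Nice D s K k Q ∧ ∀ χ : Q.V → Q.V → κ, ∃ f, IsEmb P Q f ∧
      ∃ c, ∀ u v, P.π u = x → P.π v = y → (P.A θ).Adj u v → χ (f u) (f v) = c := by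
  by_cases hD' : (D θ).Adj x y
  swap
  · refine ⟨P, Irr.refl _, hP, fun χ => ⟨id, IsEmb.id P, Classical.arbitrary κ, ?_⟩⟩
    rintro u v rfl rfl h
    exact absurd (hP.1 θ u v h) hD'
  have hxy := hD'.ne
  have := P.fin
  have : Finite (Alph P x y θ) := by unfold Alph; infer_instance
  obtain ⟨ι, _, hι⟩ := Line.exists_mono_in_high_dimension (Alph P x y θ) κ
  obtain ⟨ℓ0, -⟩ := hι (fun _ => Classical.arbitrary κ)
  obtain ⟨i0, -⟩ := ℓ0.proper
  have : Finite (Line (Alph P x y θ) ι) :=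
    Finite.of_injective (fun ℓ : Line (Alph P x y θ) ι => ℓ.idxFun)
      (fun ⟨_, _⟩ ⟨_, _⟩ h => by cases h; rfl)
  have f1 : Finite (NV P x y θ ι) := by unfold NV; infer_instance
  have f2 : Nonempty (NV P x y θ ι) := ⟨psi P x y θ ℓ0 P.ne.some⟩
  let Q : Pic L N :=
    { V := NV P x y θ ι
      fin := f1
      ne := f2
      A := nA hxy ι
      disj := by
        rintro σ τ _ _ ⟨ℓ, u, v, rfl, rfl, h⟩ h'
        exact P.disj σ τ u v h ((nA_adj hxy ℓ τ u v).mp h')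
      π := nproj P x y θ i0
      hom := by
        rintro σ _ _ ⟨ℓ, u, v, rfl, rfl, h⟩
        rw [nproj_psi hxy, nproj_psi hxy]
        exact P.hom σ u v h }
  refine ⟨Q, nA_irr hxy, ⟨?_, nA_loc hk hD hP hD' i0⟩, fun χ => ?_⟩
  · rintro σ _ _ ⟨ℓ, u, v, rfl, rfl, h⟩
    change (D σ).Adj (nproj P x y θ i0 _) (nproj P x y θ i0 _)
    rw [nproj_psi hxy, nproj_psi hxy]
    exact hP.1 σ u v h
  obtain ⟨ℓ, c, hc⟩ := hι (fun w => χ (Sum.inl fun i => (w i).1.1) (Sum.inl fun i => (w i).1.2))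
  refine ⟨psi P x y θ ℓ, ⟨psi_inj hxy ℓ, nproj_psi hxy i0 ℓ, nA_adj hxy ℓ⟩, c, ?_⟩
  intro u v hu hv h
  rw [psi_x hu, psi_y hxy hv, ← hc ⟨(u, v), hu, hv, h⟩]
  congr 2
  · funext i
    rcases hi : ℓ.idxFun i with _ | p
    · rw [lam1_none hi]; simp [hi]
    · rw [lam1_some hi]; simp [hi]
  · funext i
    rcases hi : ℓ.idxFun i with _ | p
    · rw [lam2_none hi]; simp [hi]
    · rw [lam2_some hi]; simp [hi]

theorem steps' (κ : Type) [Finite κ] [Nonempty κ] {D : L → SimpleGraph N} {k : ℕ} (hk : 2 ≤ k)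
    (hD : Loc D s K k) (P : Pic L N) (hP : Nice D s K k P) (l : List (N × N × L)) :
    ∃ Q : Pic L N, Irr Q.A P.A ∧ Nice D s K k Q ∧ ∀ χ : Q.V → Q.V → κ, ∃ f, IsEmb P Q f ∧
      ∀ r ∈ l, ∃ c, ∀ u v, P.π u = r.1 → P.π v = r.2.1 → (P.A r.2.2).Adj u v →
        χ (f u) (f v) = c := by
  induction l with
  | nil => exact ⟨P, Irr.refl _, hP, fun χ => ⟨id, IsEmb.id P, by simp⟩⟩
  | cons r l ih =>
    obtain ⟨Q, hQ, hN, hQ'⟩ := ih
    obtain ⟨R, hR, hN', hR'⟩ := step' κ hk hD Q hN r.1 r.2.1 r.2.2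
    refine ⟨R, hR.trans hQ, hN', fun χ => ?_⟩
    obtain ⟨g, hg, c, hc⟩ := hR' χ
    obtain ⟨f, hf, hl⟩ := hQ' (fun a b => χ (g a) (g b))
    refine ⟨g ∘ f, hf.comp hg, fun s' hs' => ?_⟩
    rcases List.mem_cons.mp hs' with rfl | hs'
    · exact ⟨c, fun u v hu hv h => hc (f u) (f v) ((hf.proj u).trans hu) ((hf.proj v).trans hv)
        ((hf.adj _ u v).mpr h)⟩
    · exact hl s' hs'

theorem loc_two [Finite V] [Nontrivial K] {A : L → SimpleGraph V} (hA : Disj A) : Loc A s K 2 := by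
  intro X hX
  obtain ⟨k0, k1, hk⟩ := exists_pair_ne K
  have h3 : ∀ a ∈ X, ∀ b ∈ X, ∀ c ∈ X, b ≠ c → b = a ∨ c = a := fun a ha b hb c hc h => by
    by_contra hn
    rw [not_or] at hn
    exact (not_lt.2 hX) ((two_lt_ncard (toFinite X)).2
      ⟨a, ha, b, hb, c, hc, Ne.symm hn.1, Ne.symm hn.2, h⟩)
  have hc : ∀ a ∈ X, Col A s X fun z => if z = a then k0 else k1 := fun a ha u hu v hv e => by
    rcases h3 a ha u hu v hv e.ne with rfl | rfl
    · simpa [e.ne'] using hk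
    · simpa [e.ne] using hk.symm
  refine ⟨?_, fun u hu v hv σ hσ e b => ?_⟩
  · rcases X.eq_empty_or_nonempty with rfl | ⟨a, ha⟩
    · exact ⟨fun _ => k0, fun u hu => hu.elim⟩
    · exact ⟨_, hc a ha⟩
  · by_cases hb : b
    · refine ⟨fun _ => k0, fun u' hu' v' hv' e' => absurd ?_ hσ, by simp [hb]⟩
      rcases h3 u hu u' hu' v' hv' e'.ne with rfl | rfl
      · rcases h3 v hv u' hu v' hv' e'.ne with rfl | rfl
        exacts [absurd rfl e.ne, hA _ _ _ _ e e']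
      · rcases h3 v hv u' hu' v' hu e'.ne with rfl | rfl
        exacts [hA _ _ _ _ e e'.symm, absurd rfl e.ne]
    · exact ⟨_, hc u hu, by simpa [e.ne', hb] using hk⟩

/-- The sparse typed Ramsey theorem. -/
theorem sparse_nr [Finite L] [Finite V] [Nonempty V] (κ : Type) [Finite κ] [Nonempty κ]
    [Nontrivial K] (B : L → SimpleGraph V) (hB : Disj B) (hP : PP B s K univ) (k : ℕ) :
    ∃ (W : Type) (_ : Finite W) (C : L → SimpleGraph W), Disj C ∧ Irr C B ∧ Ar κ C B ∧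
      Loc C s K (k + 2) := by
  induction k with
  | zero =>
    obtain ⟨W, hW, C, h1, h2, h3⟩ := nesetril_rodl κ B hB
    exact ⟨W, hW, C, h1, h2, h3, loc_two h1⟩
  | succ k ih =>
    obtain ⟨N, hN, D, d1, -, d3, d4⟩ := ih
    have := Fintype.ofFinite N
    have := Fintype.ofFinite L
    obtain ⟨φ0, -, h0, -⟩ := d3 (fun _ _ => Classical.arbitrary κ) fun _ _ => rfl
    let P : Pic L N :=
      { V := {φ : V → N // ∀ σ u v, (B σ).Adj u v → (D σ).Adj (φ u) (φ v)} × V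
        fin := inferInstance
        ne := ⟨(⟨φ0, fun σ u v => (h0 σ u v).2⟩, Classical.arbitrary V)⟩
        A := fun σ =>
          { Adj := fun a b => a.1 = b.1 ∧ (B σ).Adj a.2 b.2
            symm := ⟨fun _ _ h => ⟨h.1.symm, h.2.symm⟩⟩
            loopless := ⟨fun _ h => h.2.ne rfl⟩ }
        disj := fun σ τ a b h h' => hB σ τ _ _ h.2 h'.2
        π := fun a => a.1.1 a.2
        hom := fun σ a b h => by
          have := (a.1.2 σ _ _ h.2).ne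
          rwa [← h.1] }
    have hh : ∀ σ u v, (P.A σ).Adj u v → (D σ).Adj (P.π u) (P.π v) := fun σ a b h => by
      have := a.1.2 σ _ _ h.2
      change (D σ).Adj (a.1.1 a.2) (b.1.1 b.2)
      rwa [← h.1]
    have hPB : Irr P.A B := fun K _ => ⟨Prod.snd, fun _ _ _ _ _ h => h.2⟩
    obtain ⟨Q, hQ, hN', hQ'⟩ := steps' κ (by omega) d4 P
      ⟨hh, fun X _ => PP.pull Prod.snd (mapsTo_univ _ X) (fun _ _ _ _ _ h => h.2) hP⟩
      (Finset.univ : Finset (N × N × L)).toList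
    refine ⟨Q.V, Q.fin, Q.A, Q.disj, hQ.trans hPB, fun χ hχ => ?_, hN'.2⟩
    obtain ⟨f, hf, hl⟩ := hQ' χ
    let R : N → N → κ → Prop := fun x y c =>
      ∀ σ u v, P.π u = x → P.π v = y → (P.A σ).Adj u v → χ (f u) (f v) = c
    have r1 : ∀ x y c, R x y c → R y x c := fun x y c h σ u v h1 h2 e =>
      (hχ _ _).trans (h σ v u h2 h1 e.symm)
    have r2 : ∀ σ u v, (P.A σ).Adj u v → R (P.π u) (P.π v) (epsilon (R (P.π u) (P.π v))) := by
      intro σ u v e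
      obtain ⟨c, hc⟩ := hl (P.π u, P.π v, σ) (Finset.mem_toList.mpr (Finset.mem_univ _))
      refine epsilon_spec ⟨c, fun τ u' v' h1 h2 e' => hc u' v' h1 h2 ?_⟩
      have e2 := hh τ u' v' e'
      rw [h1, h2] at e2
      exact d1 _ _ _ _ e2 (hh σ u v e) ▸ e'
    obtain ⟨φ, -, g2, c, g3⟩ := d3 (fun x y => epsilon (R x y)) fun x y =>
      congrArg epsilon (funext fun c => propext ⟨r1 x y c, r1 y x c⟩)
    let φ' : {φ : V → N // ∀ σ u v, (B σ).Adj u v → (D σ).Adj (φ u) (φ v)} :=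
      ⟨φ, fun σ u v => (g2 σ u v).2⟩
    refine ⟨fun v => f (φ', v), fun u v h => (Prod.mk.inj (hf.inj h)).2,
      fun σ u v => (hf.adj σ _ _).trans ⟨fun h => h.2, fun h => ⟨rfl, h⟩⟩, c, fun σ u v h => ?_⟩
    exact (r2 σ (φ', u) (φ', v) ⟨rfl, h⟩ σ _ _ rfl rfl ⟨rfl, h⟩).trans (g3 σ u v h)

end Pool.Agent.Work.MP_683e5e_co.Hedge
end

-- merged part: Pool.Agent.Work.MP_683e5e_co.Hedge.Base
section
/-! Arrows in many colours, the inclusion lemma, minimal graphs, typed cliques. -/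

set_option autoImplicit false

namespace Pool.Agent.Work.MP_683e5e_co.Hedge

open Classical SimpleGraph Pool.Agent.Lib.Ramsey Set

variable {I J L U W : Type} {V : I → Type} {t : J → ℕ}

/-- The edges of `F` of colour `i`. -/
def cg (F : SimpleGraph W) (χ : Sym2 W → I) (i : I) : SimpleGraph W where
  Adj u v := F.Adj u v ∧ χ s(u, v) = i
  symm := ⟨fun _ _ h => ⟨h.1.symm, Sym2.eq_swap ▸ h.2⟩⟩
  loopless := ⟨fun _ h => h.1.ne rfl⟩

/-- `F` is Ramsey for the tuple `G`. -/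
def AG (F : SimpleGraph W) (G : ∀ i, SimpleGraph (V i)) : Prop :=
  ∀ χ : Sym2 W → I, ∃ i, Sub (G i) (cg F χ i)

/-- `F` is Ramsey for the cliques with index in `Φ`. -/
def AK (F : SimpleGraph W) (t : J → ℕ) (Φ : Set J) : Prop :=
  ∀ χ : Sym2 W → J, (∀ u v, F.Adj u v → χ s(u, v) ∈ Φ) → ∃ j, HasK (cg F χ j) (t j)

theorem AK.of_hom {G : SimpleGraph U} {H : SimpleGraph W} {Φ : Set J} (h : AK G t Φ) (f : U → W)
    (hf : ∀ u v, G.Adj u v → H.Adj (f u) (f v)) : AK H t Φ := fun χ hχ => by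
  obtain ⟨j, hj⟩ := h (fun e => χ (e.map f)) fun u v e => hχ _ _ (hf u v e)
  exact ⟨j, hj.map f fun u v e => ⟨hf u v e.1, e.2⟩⟩

theorem HasK.edge {F : SimpleGraph W} {n : ℕ} (h : HasK F n) (hn : 2 ≤ n) : ∃ u v, F.Adj u v := by
  obtain ⟨f, hf⟩ := h
  exact ⟨_, _, hf ⟨0, by omega⟩ ⟨1, by omega⟩ (by simp)⟩

theorem fib {G : SimpleGraph U} {F : SimpleGraph W} {c : J → I} {i : I} (ht : ∀ j, 3 ≤ t j)
    (hc : AK G t (c ⁻¹' {i})) {χ : Sym2 W → J} (hs : Sub G (cg F (c ∘ χ) i)) :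
    ∃ j, c j = i ∧ HasK (cg F χ j) (t j) := by
  obtain ⟨f, -, hf⟩ := hs
  obtain ⟨j, hj⟩ := hc.of_hom f hf χ fun u v e => e.2
  obtain ⟨u, v, e⟩ := HasK.edge hj ((ht j).trans' (by omega))
  exact ⟨j, e.2 ▸ e.1.2, hj.mono fun u v e => ⟨e.1.1, e.2⟩⟩

theorem exists_typ [Nonempty L] {C : L → SimpleGraph W} (hC : Disj C) :
    ∃ χ : Sym2 W → L, ∀ σ, cg (⨆ τ, C τ) χ σ = C σ := by
  have k : ∀ σ u v, (C σ).Adj u v → epsilon (fun τ => s(u, v) ∈ (C τ).edgeSet) = σ :=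
    fun σ u v h => hC _ _ u v (epsilon_spec (p := fun τ => s(u, v) ∈ (C τ).edgeSet) ⟨σ, h⟩) h
  refine ⟨fun e => epsilon fun τ => e ∈ (C τ).edgeSet, fun σ => ?_⟩
  ext u v
  refine ⟨fun h => ?_, fun h => ⟨iSup_adj.2 ⟨σ, h⟩, k σ u v h⟩⟩
  obtain ⟨τ, h1⟩ := iSup_adj.1 h.1
  exact (k τ u v h1).symm.trans h.2 ▸ h1

/-- Disjoint union of a family of graphs. -/
def sig {S : Type} {X : S → Type} (A : ∀ s, SimpleGraph (X s)) : SimpleGraph (Σ s, X s) where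
  Adj x y := ∃ s u v, x = ⟨s, u⟩ ∧ y = ⟨s, v⟩ ∧ (A s).Adj u v
  symm := ⟨fun _ _ ⟨s, u, v, a, b, h⟩ => ⟨s, v, u, b, a, h.symm⟩⟩
  loopless := ⟨fun _ ⟨_, _, _, a, b, h⟩ => h.ne (sigma_mk_injective (a.symm.trans b))⟩

section
variable {S : Type} {X : S → Type}

theorem sig_adj {A : ∀ s, SimpleGraph (X s)} {s : S} {u v : X s} :
    (sig A).Adj ⟨s, u⟩ ⟨s, v⟩ ↔ (A s).Adj u v := by
  refine ⟨?_, fun h => ⟨s, u, v, rfl, rfl, h⟩⟩
  rintro ⟨s', u', v', a, b, h⟩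
  cases a
  cases b
  exact h

theorem hasK_sig {A : ∀ s, SimpleGraph (X s)} {n : ℕ} (hn : 1 ≤ n) (h : HasK (sig A) n) :
    ∃ s, HasK (A s) n := by
  obtain ⟨f, hf⟩ := h
  have k : ∀ i, ∃ u, f i = ⟨(f ⟨0, hn⟩).1, u⟩ := fun i => by
    by_cases e : i = ⟨0, hn⟩
    · exact ⟨(f ⟨0, hn⟩).2, by rw [e]⟩
    · obtain ⟨s, u, v, a, b, -⟩ := hf i _ e
      rw [b]
      exact ⟨u, a⟩
  choose g hg using k
  refine ⟨_, g, fun i j hij => sig_adj.1 ?_⟩
  rw [← hg, ← hg]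
  exact hf i j hij

theorem disj_sig {A : ∀ s, L → SimpleGraph (X s)} (h : ∀ s, Disj (A s)) :
    Disj fun σ => sig fun s => A s σ := by
  rintro σ τ _ _ ⟨s, u, v, rfl, rfl, a⟩ b
  exact h s σ τ u v a ((sig_adj (A := fun s => A s τ)).1 b)

end

theorem disj_cg (F : SimpleGraph W) (χ : Sym2 W → L) : Disj (cg F χ) :=
  fun _ _ _ _ a b => a.2.symm.trans b.2

/-- The inclusion lemma. -/
theorem incl [Finite I] [Finite J] [Nonempty I] [Nonempty J] [∀ i, Finite (V i)]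
    [∀ i, Nonempty (V i)] (ht : ∀ j, 3 ≤ t j) {G : ∀ i, SimpleGraph (V i)}
    (h : ∀ (W : Type) [Finite W] (F : SimpleGraph W), AG F G → AK F t univ) :
    ∃ c : J → I, ∀ i, AK (G i) t (c ⁻¹' {i}) := by
  by_contra hc
  simp only [AK, not_exists, not_forall] at hc
  choose i χ h1 h2 using hc
  have : Nonempty (Σ c : J → I, V (i c)) := ⟨⟨Classical.arbitrary _, Classical.arbitrary _⟩⟩
  obtain ⟨W, hW, C, hD, hI, hC⟩ := nesetril_rodl I
    (fun j => sig fun c : J → I => cg (G (i c)) (χ c) j) (disj_sig fun c => disj_cg _ _)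
  obtain ⟨ψ, hψ⟩ := exists_typ hD
  obtain ⟨j, hj⟩ := h W (⨆ j, C j) (fun ξ => by
    obtain ⟨φ, hφ, ha, c, hc⟩ := hC (fun a b => ξ s(a, b)) fun a b => by rw [Sym2.eq_swap]
    refine ⟨i c, fun v => φ ⟨c, v⟩, hφ.comp sigma_mk_injective, fun u v e => ?_⟩
    have e' : (sig fun c' : J → I => cg (G (i c')) (χ c') (χ c s(u, v))).Adj ⟨c, u⟩ ⟨c, v⟩ :=
      sig_adj.2 ⟨e, rfl⟩
    exact ⟨iSup_adj.2 ⟨_, (ha _ _ _).2 e'⟩, (hc _ _ _ e').trans (h1 c u v e)⟩) ψ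
    fun _ _ _ => trivial
  rw [hψ] at hj
  obtain ⟨c, hc⟩ := hasK_sig ((ht j).trans' (by omega)) (hasK_of_irr hI hj)
  exact h2 c j hc

/-- A minimal Ramsey graph. -/
theorem minimal [Nonempty J] (ht : ∀ j, 3 ≤ t j) [Finite W] {F₀ : SimpleGraph W}
    (h : AK F₀ t univ) : ∃ (F : SimpleGraph W) (e : Sym2 W) (χ : Sym2 W → J), AK F t univ ∧
      ∀ j, ¬ HasK (cg (F.deleteEdges {e}) χ j) (t j) := by
  obtain ⟨F, -, hF⟩ := exists_minimal_le_of_wellFoundedLT (fun F => AK F t univ) F₀ h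
  obtain ⟨j, hj⟩ := hF.1 (fun _ => Classical.arbitrary J) fun _ _ _ => trivial
  obtain ⟨u, v, e, -⟩ := HasK.edge hj ((ht j).trans' (by omega))
  have hn : ¬ AK (F.deleteEdges {s(u, v)}) t univ := fun h' => by
    have := hF.2 h' (F.deleteEdges_le _) e
    simp at this
  simp only [AK, not_exists, not_forall] at hn
  obtain ⟨χ, -, hχ⟩ := hn
  exact ⟨F, _, χ, hF.1, hχ⟩

/-- Each graph of the tuple embeds so that, apart from one edge, its colour class is good. -/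
theorem one_edge [Nonempty J] (ht : ∀ j, 3 ≤ t j) [Finite W] {F₀ : SimpleGraph W}
    (h : AK F₀ t univ) {G : ∀ i, SimpleGraph (V i)}
    (hE : ∀ F : SimpleGraph W, AK F t univ → AG F G) {c : J → I}
    (hc : ∀ i, AK (G i) t (c ⁻¹' {i})) (i₀ : I) :
    ∃ (F : SimpleGraph W) (e : Sym2 W) (χ : Sym2 W → J) (g : V i₀ → W), Function.Injective g ∧
      (∀ j, ¬ HasK (cg F χ j) (t j)) ∧
      ∀ u v, (G i₀).Adj u v → s(g u, g v) = e ∨ (cg F (c ∘ χ) i₀).Adj (g u) (g v) := by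
  obtain ⟨F, e, χ, h1, h2⟩ := minimal ht h
  obtain ⟨i, g, g1, g2⟩ := hE F h1 fun e' => if e' = e then i₀ else c (χ e')
  have k : ∀ u v, (G i).Adj u v → (s(g u, g v) = e ∧ i₀ = i) ∨
      (cg (F.deleteEdges {e}) (c ∘ χ) i).Adj (g u) (g v) := fun u v a => by
    obtain ⟨a1, a2⟩ := g2 u v a
    beta_reduce at a2
    split_ifs at a2 with a3
    · exact Or.inl ⟨a3, a2⟩
    · exact Or.inr ⟨deleteEdges_adj.2 ⟨a1, a3⟩, a2⟩
  by_cases hi : i₀ = i
  · subst hi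
    exact ⟨_, e, χ, g, g1, h2, fun u v a => (k u v a).imp_left And.left⟩
  · obtain ⟨j, -, hj⟩ := fib ht (hc i) ⟨g, g1, fun u v a => (k u v a).resolve_left fun h => hi h.2⟩
    exact absurd hj (h2 j)

theorem collide [Finite J] (t : J → ℕ) (c : J → J) (A : Set J) (hA : MapsTo c A A)
    (hm : ∀ j ∈ A, t j ≤ t (c j)) (hn : ¬ InjOn c A) :
    ∃ i ∈ A, ∃ i' ∈ A, i ≠ i' ∧ c i = c i' ∧ t (c i) = t i := by
  by_contra hc
  have k : ∀ i ∈ A, ∀ i' ∈ A, i ≠ i' → c i = c i' → t i < t (c i) := fun i a i' a' n e =>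
    lt_of_le_of_ne (hm i a) fun e' => hc ⟨i, a, i', a', n, e, e'.symm⟩
  obtain ⟨i, ⟨a, i', a', n, e⟩, hi⟩ := exists_max_image
    {i | i ∈ A ∧ ∃ i' ∈ A, i ≠ i' ∧ c i = c i'} (fun i => t (c i)) (toFinite _) (by
      by_contra h
      exact hn fun i a i' a' e => by_contra fun n => h ⟨i, a, i', a', n, e⟩)
  have m : MapsTo c {j | j ∈ A ∧ t (c i) ≤ t j} {j | j ∈ A ∧ t (c i) ≤ t j} :=
    fun j h => ⟨hA h.1, h.2.trans (hm j h.1)⟩
  have inj : InjOn c {j | j ∈ A ∧ t (c i) ≤ t j} := fun j h j' h' e' => by_contra fun n' => by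
    have h1 := k j h.1 j' h'.1 n' e'
    have h2 : t (c j) ≤ t (c i) := hi j ⟨h.1, j', h'.1, n', e'⟩
    have h3 := h.2
    omega
  obtain ⟨j, h, e'⟩ := ((toFinite _).injOn_iff_bijOn_of_mapsTo m).1 inj |>.surjOn
    (⟨hA a, le_rfl⟩ : c i ∈ {j | j ∈ A ∧ t (c i) ≤ t j})
  have h1 := k i a i' a' n e
  have h3 := h.2
  have h2 := k j h.1 i a (fun e => by rw [e] at h3; omega) e'
  rw [e'] at h2
  omega

/-- A clique of type `i` in which the first edge has type `i'`. -/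
def tc (n : ℕ) (i i' σ : J) : SimpleGraph (Fin n) where
  Adj u v := u ≠ v ∧ σ = if u.1 + v.1 = 1 then i' else i
  symm := ⟨fun _ _ h => ⟨h.1.symm, add_comm (G := ℕ) _ _ ▸ h.2⟩⟩
  loopless := ⟨fun _ h => h.1 rfl⟩

theorem disj_tc (n : ℕ) (i i' : J) : Disj (tc n i i') := fun _ _ _ _ a b => a.2.trans b.2.symm

theorem tc_free {n k : ℕ} {i i' σ : J} (hk : 3 ≤ k) (h : HasK (tc n i i' σ) k) :
    σ = i ∧ k ≤ n ∧ (i ≠ i' → k < n) := by
  have h1 : k ≤ n := by simpa using h.card_le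
  have h2 : σ = i := by
    obtain ⟨f, hf⟩ := h.le hk
    have a := hf 0 1 (by decide)
    have b := hf 0 2 (by decide)
    have c := hf 1 2 (by decide)
    by_contra hn
    have a' : (f 0).1 + (f 1).1 = 1 := by_contra fun e => hn (a.2.trans (if_neg e))
    have b' : (f 0).1 + (f 2).1 = 1 := by_contra fun e => hn (b.2.trans (if_neg e))
    exact c.1 (Fin.ext (by omega))
  refine ⟨h2, h1, fun hi => lt_of_le_of_ne h1 ?_⟩
  rintro rfl
  obtain ⟨f, hf⟩ := h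
  have hs := Finite.injective_iff_surjective.1 (clique_inj hf)
  obtain ⟨a, ha⟩ := hs ⟨0, by omega⟩
  obtain ⟨b, hb⟩ := hs ⟨1, by omega⟩
  have := hf a b fun e => by
    rw [e, hb] at ha
    simp at ha
  rw [ha, hb] at this
  exact hi (h2.symm.trans (this.2.trans (if_pos rfl)))

/-- The family of all typed cliques with sizes `n`. -/
def TC (n : J → J → ℕ) (σ : J) : SimpleGraph (Σ p : J × J, Fin (n p.1 p.2)) :=
  sig fun p => tc (n p.1 p.2) p.1 p.2 σ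

theorem disj_TC (n : J → J → ℕ) : Disj (TC n) :=
  disj_sig (A := fun (p : J × J) σ => tc (n p.1 p.2) p.1 p.2 σ) fun _ => disj_tc _ _ _

theorem TC_free {n : J → J → ℕ} {σ : J} {k : ℕ} (hk : 3 ≤ k) (h1 : n σ σ < k)
    (h2 : ∀ i', n σ i' ≤ k) : ¬ HasK (TC n σ) k := fun h => by
  obtain ⟨⟨i, i'⟩, hp⟩ := hasK_sig (by omega) h
  obtain ⟨rfl, a, b⟩ := tc_free hk hp
  by_cases e : σ = i'
  · subst e
    exact absurd a (not_le.2 h1)
  · exact absurd (b e) (not_lt.2 (h2 i'))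

theorem TC_full {n : J → J → ℕ} {H : SimpleGraph W} {φ : (Σ p : J × J, Fin (n p.1 p.2)) → W}
    {i i' : J} (h : ∀ σ, σ = i ∨ σ = i' → ∀ u v, (TC n σ).Adj u v → H.Adj (φ u) (φ v)) :
    HasK H (n i i') := by
  refine ⟨fun u => φ ⟨(i, i'), u⟩, fun u v e => h (if u.1 + v.1 = 1 then i' else i) ?_ _ _
    (sig_adj.2 ⟨e, rfl⟩)⟩
  split_ifs
  exacts [Or.inr rfl, Or.inl rfl]

end Pool.Agent.Work.MP_683e5e_co.Hedge
end

-- merged part: Pool.Agent.Work.MP_683e5e_co.Hedge.Fib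
section
/-! The fibres of the map given by the inclusion lemma have at most one element. -/

set_option autoImplicit false

namespace Pool.Agent.Work.MP_683e5e_co.Hedge

open Classical SimpleGraph Pool.Agent.Lib.Ramsey Set

variable {I J U W : Type} {V : I → Type} {t : J → ℕ}

theorem TC_PP {n : J → J → ℕ} {s : J} {m : ℕ} (hm : 3 ≤ m) (h1 : n s s ≤ m)
    (h2 : ∀ i', i' ≠ s → n s i' = 0) : PP (TC n) s (Fin m) univ := by
  have k : ∀ (p : J × J) (u v : Fin (n p.1 p.2)), (tc _ p.1 p.2 s).Adj u v →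
      p = (s, s) ∨ (u.1 + v.1 = 1 ∧ p.2 = s) := by
    rintro ⟨i, i'⟩ u v ⟨-, e⟩
    split_ifs at e with a
    · exact Or.inr ⟨a, e.symm⟩
    · subst e
      by_cases b : i' = s
      · exact Or.inl (by rw [b])
      · exact absurd u.2 (by simp [h2 i' b])
  have base : ∀ (p : J × J) (u v : Fin (n p.1 p.2)), (tc _ p.1 p.2 s).Adj u v →
      u.1 % m ≠ v.1 % m := fun p u v e => by
    have e1 : u.1 ≠ v.1 := fun h => e.1 (Fin.ext h)
    have : u.1 < m ∧ v.1 < m := by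
      rcases k p u v e with rfl | h
      · exact ⟨u.2.trans_le h1, v.2.trans_le h1⟩
      · omega
    rwa [Nat.mod_eq_of_lt this.1, Nat.mod_eq_of_lt this.2]
  refine ⟨⟨fun z => ⟨z.2.1 % m, Nat.mod_lt _ (by omega)⟩, ?_⟩, ?_⟩
  · rintro _ - _ - ⟨p, u, v, rfl, rfl, e⟩ h
    exact base p u v e (congrArg Fin.val h)
  · rintro _ - _ - σ hσ ⟨p, u, v, rfl, rfl, e⟩ b
    have e1 : u.1 ≠ v.1 := fun h => e.1 (Fin.ext h)
    let w : ℕ := if u.1 = 0 ∨ v.1 = 0 then 1 else 0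
    let ψ : (Σ p : J × J, Fin (n p.1 p.2)) → ℕ := fun z => if z.1 = p then
      (if z.2.1 = w ∧ u.1 + v.1 ≠ 1 then 2 else if z.2.1 = u.1 ∧ ¬ b then 1 else 0) else z.2.1 % m
    have hψ : ∀ z, ψ z < m := fun z => by
      have := Nat.mod_lt z.2.1 (show 0 < m by omega)
      simp only [ψ]
      split_ifs <;> omega
    refine ⟨fun z => ⟨ψ z, hψ z⟩, ?_, ?_⟩
    · rintro _ - _ - ⟨p', u', v', rfl, rfl, e'⟩ h
      have h' : ψ ⟨p', u'⟩ = ψ ⟨p', v'⟩ := congrArg Fin.val h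
      by_cases a : p' = p
      · subst a
        rcases k p' u' v' e' with rfl | ⟨a1, a2⟩
        · exact hσ (e.2.trans (ite_self _))
        · have a3 : u.1 + v.1 ≠ 1 := fun h => hσ (e.2.trans ((if_pos h).trans a2))
          have a4 : w = 0 ∨ w = 1 := by
            simp only [w]
            split_ifs <;> simp
          simp only [ψ, if_true] at h'
          split_ifs at h' <;> omega
      · simp only [ψ, if_neg a] at h'
        exact base p' u' v' e' h'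
    · have a1 : ¬ (u.1 = w ∧ u.1 + v.1 ≠ 1) := by
        simp only [w]
        split_ifs <;> omega
      have a2 : ¬ (v.1 = w ∧ u.1 + v.1 ≠ 1) := by
        simp only [w]
        split_ifs <;> omega
      rw [Fin.mk.injEq]
      simp only [ψ, if_true, if_neg a1, if_neg a2, true_and, e1.symm, false_and, if_false]
      by_cases hb : b <;> simp [hb]

theorem not_col (ht : ∀ j, 3 ≤ t j) {G : SimpleGraph U} {Φ : Set J} (h : AK G t Φ) {j₀ j₁ : J}
    (h0 : j₀ ∈ Φ) (h1 : j₁ ∈ Φ) (hne : j₀ ≠ j₁) (φ : U → Fin (t j₀)) :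
    ¬ ∀ u v, G.Adj u v → φ u ≠ φ v := fun hφ => by
  have : Nonempty J := ⟨j₀⟩
  obtain ⟨ψ, hψ⟩ := exists_typ (disj_tc (t j₀) j₀ j₁)
  obtain ⟨j, hj⟩ := h.of_hom (H := ⨆ τ, tc (t j₀) j₀ j₁ τ) φ
    (fun u v e => iSup_adj.2 ⟨_, hφ u v e, rfl⟩) ψ fun u v e => by
      have a : (cg _ ψ (ψ s(u, v))).Adj u v := ⟨e, rfl⟩
      rw [hψ] at a
      rw [a.2]
      split_ifs
      exacts [h1, h0]
  rw [hψ] at hj
  obtain ⟨rfl, -, a⟩ := tc_free (ht j) hj
  exact lt_irrefl _ (a hne)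

theorem fib_inj [Finite J] [∀ i, Finite (V i)] (ht : ∀ j, 3 ≤ t j) {G : ∀ i, SimpleGraph (V i)}
    (hE : ∀ (W : Type) [Finite W] (F : SimpleGraph W), AK F t univ → AG F G) {c : J → I}
    (hc : ∀ i, AK (G i) t (c ⁻¹' {i})) : Function.Injective c := by
  intro a b hab
  by_contra hne
  obtain ⟨j₀, h0, hmax⟩ := exists_max_image {j | c j = c a} t (toFinite _) ⟨a, rfl⟩
  have h0 : c j₀ = c a := h0
  obtain ⟨j₁, h1, h01⟩ : ∃ j₁, c j₁ = c a ∧ j₀ ≠ j₁ := by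
    by_cases e : j₀ = a
    · exact ⟨b, hab.symm, e ▸ hne⟩
    · exact ⟨a, rfl, e⟩
  have big : ∀ j, t j₀ < t j → c j ≠ c a := fun j h e => absurd (hmax j e) (not_le.2 h)
  let n : J → J → ℕ := fun i i' => if i = i' then
    (if i = j₀ then t j₀ else if c i = c a then 0 else t i - 1)
    else if c i ≠ c a ∧ (c i' ≠ c a ∨ i' = j₀) then t i else 0
  have n0 : n j₀ j₀ = t j₀ := by simp [n]
  have n1 : ∀ j, c j ≠ c a → n j j = t j - 1 := fun j h => by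
    simp only [n, if_true, if_neg h, if_neg (show j ≠ j₀ from fun e => h (e ▸ h0))]
  have h3 := ht j₀
  have : Nonempty J := ⟨a⟩
  have : Nonempty (Σ p : J × J, Fin (n p.1 p.2)) := ⟨⟨(j₀, j₀), 0, by rw [n0]; omega⟩⟩
  have : Nontrivial (Fin (t j₀)) := Fin.nontrivial_iff_two_le.2 (by omega)
  obtain ⟨W, hW, C, hD, hI, hA, hL⟩ := sparse_nr (s := j₀) (K := Fin (t j₀)) J (TC n) (disj_TC n)
    (TC_PP h3 n0.le fun i' h => by simp [n, h.symm, h0]) (Nat.card (V (c a)))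
  obtain ⟨ψ, hψ⟩ := exists_typ hD
  obtain ⟨i, hi⟩ := hE W (⨆ τ, C τ) (fun χ _ => by
    obtain ⟨φ, -, ha, d, hd⟩ := hA (fun a b => χ s(a, b)) fun a b => by rw [Sym2.eq_swap]
    have full : ∀ i i', d i' = d i → t (d i) ≤ n i i' → ∃ j, HasK (cg (⨆ τ, C τ) χ j) (t j) :=
      fun i i' e h => ⟨d i, (TC_full (H := cg (⨆ τ, C τ) χ (d i)) (φ := φ) (i := i) (i' := i')
        fun σ hσ u v h' => ⟨iSup_adj.2 ⟨σ, (ha σ u v).2 h'⟩, (hd σ u v h').trans (by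
          rcases hσ with rfl | rfl
          exacts [rfl, e])⟩).le h⟩
    by_cases c0 : t (d j₀) ≤ t j₀
    · exact full j₀ j₀ rfl (n0.symm ▸ c0)
    by_cases c1 : ∃ j, c j ≠ c a ∧ t (d j) < t j
    · obtain ⟨j, a1, a2⟩ := c1
      exact full j j rfl (by rw [n1 j a1]; omega)
    have mono : ∀ j ∈ {j | t j₀ < t j ∨ j = j₀}, t j ≤ t (d j) ∧ t j₀ < t (d j) := by
      rintro j (h | rfl)
      · have : t j ≤ t (d j) := not_lt.1 fun h' => c1 ⟨j, big j h, h'⟩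
        omega
      · omega
    have maps : MapsTo d {j | t j₀ < t j ∨ j = j₀} {j | t j₀ < t j ∨ j = j₀} :=
      fun j h => Or.inl (mono j h).2
    obtain ⟨i, m, i', m', a1, a2, a3⟩ := collide t d _ maps (fun j h => (mono j h).1) fun inj => by
      obtain ⟨j, h, e⟩ := (((toFinite _).injOn_iff_bijOn_of_mapsTo maps).1 inj).surjOn (Or.inr rfl)
      have := (mono j h).2
      rw [e] at this
      exact lt_irrefl _ this
    have a4 : c i ≠ c a := big i (a3 ▸ (mono i m).2)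
    refine full i i' a2.symm ?_
    simp only [n, if_neg a1, if_pos (And.intro a4 (m'.imp_left (big i'))), a3, le_refl]) (c ∘ ψ)
  by_cases e : i = c a
  · subst e
    obtain ⟨g, -, hg⟩ := hi
    obtain ⟨φ, hφ⟩ := (hL (range g) (by
      rw [← image_univ]
      exact (ncard_image_le (toFinite _)).trans (by rw [ncard_univ]; omega))).1
    refine not_col ht (hc _) h0 h1 h01 (φ ∘ g) fun u v e => hφ _ ⟨u, rfl⟩ _ ⟨v, rfl⟩ ?_
    have a1 : (cg _ ψ (ψ s(g u, g v))).Adj (g u) (g v) := ⟨(hg u v e).1, rfl⟩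
    have a2 : c (ψ s(g u, g v)) = c a := (hg u v e).2
    rw [hψ] at a1
    generalize ψ s(g u, g v) = τ at a1 a2
    by_cases a3 : τ = j₀
    · exact a3 ▸ a1
    obtain ⟨f, hf⟩ := hasK_of_irr hI (σ := τ) (n := 2) ⟨![g u, g v], fun i j hij => by
      fin_cases i <;> fin_cases j <;> simp_all [adj_comm]⟩
    obtain ⟨⟨i, i'⟩, x, y, -, -, -, a4⟩ := hf 0 1 (by decide)
    have a5 : τ = i ∨ τ = i' := by
      split_ifs at a4
      exacts [Or.inr a4, Or.inl a4]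
    have a6 : n i i' = 0 := by
      by_cases a7 : i = i'
      · obtain rfl : τ = i := a5.elim id fun h => h.trans a7.symm
        simp only [n, if_pos a7, if_neg a3, if_pos a2]
      · simp only [n, if_neg a7]
        refine if_neg fun h => ?_
        rcases a5 with rfl | rfl
        exacts [h.1 a2, h.2.elim (fun h => h a2) a3]
    exact absurd (x.2.trans_eq a6) (Nat.not_lt_zero _)
  · obtain ⟨j, rfl, hj⟩ := fib ht (hc i) hi
    rw [hψ] at hj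
    refine TC_free (ht j) ?_ (fun i' => ?_) (hasK_of_irr hI hj)
    · have := ht j
      rw [n1 j e]
      omega
    · by_cases a : j = i'
      · rw [← a, n1 j e]
        omega
      · simp only [n, if_neg a]
        split_ifs <;> omega

end Pool.Agent.Work.MP_683e5e_co.Hedge
end

-- merged part: Pool.Agent.Work.MP_683e5e_co.Hedge.Gadget
section
/-! The pendant edge gadget in many colours. -/

set_option autoImplicit false

namespace Pool.Agent.Work.MP_683e5e_co.Hedge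

open Classical SimpleGraph Pool.Agent.Lib.Ramsey Set

variable {J W : Type}

theorem not_hasK_nat {F : SimpleGraph W} {n : ℕ} (hn : 1 ≤ n) (r : W → ℕ)
    (h : ∀ u v, F.Adj u v → r u ≠ r v ∧ r u < n) : ¬ HasK F (n + 1) := fun hK => by
  have := (hK.map (F' := (⊤ : SimpleGraph (Fin n))) (fun u => ⟨r u % n, Nat.mod_lt _ hn⟩)
    fun u v e e' => by
      have a := congrArg Fin.val e'
      simp only [Nat.mod_eq_of_lt (h u v e).2, Nat.mod_eq_of_lt (h v u e.symm).2] at a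
      exact (h u v e).1 a).card_le
  simp at this

/-- Cliques of all types but `k`, glued at one vertex. -/
def St (r : J → ℕ) (k l : J) : SimpleGraph (Option (Σ j, Fin (r j))) where
  Adj x y := l ≠ k ∧ x ≠ y ∧ (∀ z, x = some z → z.1 = l) ∧ ∀ z, y = some z → z.1 = l
  symm := ⟨fun _ _ h => ⟨h.1, h.2.1.symm, h.2.2.2, h.2.2.1⟩⟩
  loopless := ⟨fun _ h => h.2.1 rfl⟩

/-- Pentagons of all types but `k`. -/
def Pe (k l : J) : SimpleGraph (J × Fin 5) where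
  Adj x y := l ≠ k ∧ x.1 = l ∧ y.1 = l ∧ (cycleGraph 5).Adj x.2 y.2
  symm := ⟨fun _ _ h => ⟨h.1, h.2.2.1, h.2.1, h.2.2.2.symm⟩⟩
  loopless := ⟨fun _ h => h.2.2.2.ne rfl⟩

theorem St_free (r : J → ℕ) (k l : J) : ¬ HasK (St r k l) (r l + 2) := by
  refine not_hasK_nat (by omega) (fun x => x.elim 0 fun z => z.2.1 + 1) ?_
  rintro (_ | ⟨j, a⟩) (_ | ⟨j', b⟩) ⟨-, h, h1, h2⟩
  · exact absurd rfl h
  · simp
  · obtain rfl : j = l := h1 _ rfl
    simp
  · obtain rfl : j = l := h1 _ rfl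
    obtain rfl : j' = j := h2 _ rfl
    simpa [Fin.ext_iff] using h

theorem pent {κ : Type} {a : Fin 5 → κ} {c : Sym2 κ}
    (h : ∀ i j, (cycleGraph 5).Adj i j → s(a i, a j) = c) : ∃ x, c = s(x, x) := by
  have k : ∀ i j l, (cycleGraph 5).Adj i j → (cycleGraph 5).Adj j l → a i = a l := by
    intro i j l h1 h2
    rcases Sym2.eq_iff.1 ((h i j h1).trans (h j l h2).symm) with e | e
    exacts [e.1.trans e.2, e.1]
  refine ⟨a 0, (h 0 1 (by decide)).symm.trans ?_⟩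
  rw [← k 4 0 1 (by decide) (by decide), ← k 2 3 4 (by decide) (by decide),
    ← k 0 1 2 (by decide) (by decide)]

/-- Typed vertex Folkman graphs. -/
theorem vfolk [Finite J] {r : J → ℕ} (hr : ∀ j, 1 ≤ r j) (κ : Type) [Finite κ] [Nonempty κ]
    (k : J) : ∃ (U : Type) (_ : Finite U) (Y : J → SimpleGraph U), Disj Y ∧
      (∀ u v, ¬ (Y k).Adj u v) ∧ (∀ l, ¬ HasK (Y l) (r l + 2)) ∧ ∀ c : U → κ, ∃ y, ∀ l, l ≠ k →
        ∃ g : Fin (r l + 1) → U, (∀ i j, i ≠ j → (Y l).Adj (g i) (g j)) ∧ ∀ i, c (g i) = c y := by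
  have hB : Disj fun l => St r k l ⊕g Pe k l := disj_sum (by
    rintro σ τ (_ | x) (_ | y) a b
    · exact absurd rfl a.2.1
    · exact (a.2.2.2 _ rfl).symm.trans (b.2.2.2 _ rfl)
    · exact (a.2.2.1 _ rfl).symm.trans (b.2.2.1 _ rfl)
    · exact (a.2.2.1 _ rfl).symm.trans (b.2.2.1 _ rfl)) fun σ τ x y a b => a.2.1.symm.trans b.2.1
  have : Nonempty (Sym2 κ) := ⟨s(Classical.arbitrary κ, Classical.arbitrary κ)⟩
  obtain ⟨U, hU, Y, hD, hI, hC⟩ := nesetril_rodl (Sym2 κ) _ hB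
  refine ⟨U, hU, Y, hD, fun u v h => ?_, fun l h => ?_, fun c => ?_⟩
  · rcases hasK_sum (hasK_of_irr hI (σ := k) (n := 2) ⟨![u, v], fun i j hij => by
      fin_cases i <;> fin_cases j
      exacts [absurd rfl hij, h, h.symm, absurd rfl hij]⟩) with ⟨f, hf⟩ | ⟨f, hf⟩
    exacts [(hf 0 1 (by decide)).1 rfl, (hf 0 1 (by decide)).1 rfl]
  · rcases hasK_sum (hasK_of_irr hI h) with h | h
    · exact St_free r k l h
    · exact not_hasK_cycle ((h.map Prod.snd fun _ _ e => e.2.2.2).le (by have := hr l; omega))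
  · obtain ⟨φ, -, h1, d, h2⟩ := hC (fun a b => s(c a, c b)) fun a b => Sym2.eq_swap
    refine ⟨φ (Sum.inl none), fun l hl => ?_⟩
    obtain ⟨x, hx⟩ := pent (a := fun i => c (φ (Sum.inr (l, i)))) (c := d l) fun i j e =>
      h2 l (Sum.inr (l, i)) (Sum.inr (l, j)) ⟨hl, rfl, rfl, e⟩
    have a0 : ∀ a : Fin (r l), (St r k l).Adj none (some ⟨l, a⟩) := fun a =>
      ⟨hl, by simp, by simp, by rintro _ ⟨⟩; rfl⟩
    have a1 : ∀ a : Fin (r l), c (φ (Sum.inl (some ⟨l, a⟩))) = c (φ (Sum.inl none)) := fun a => by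
      rcases Sym2.eq_iff.1 ((h2 l (Sum.inl none) (Sum.inl (some ⟨l, a⟩)) (a0 a)).trans hx) with e | e
      exacts [e.2.trans e.1.symm, e.2.trans e.1.symm]
    refine ⟨_, clique_cons (v := φ (Sum.inl none)) (g := fun a => φ (Sum.inl (some ⟨l, a⟩)))
      (fun i j hij => (h1 l _ _).2 ⟨hl, by simpa using hij, by rintro _ ⟨⟩; rfl,
        by rintro _ ⟨⟩; rfl⟩) fun a => (h1 l _ _).2 (a0 a), fun i => ?_⟩
    induction i using Fin.cases with
    | zero => rfl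
    | succ i => exact a1 i

section Construction

variable (C : J → SimpleGraph W) (r : J → ℕ) (j₀ : J)

/-- Admissible typings of the edges to a new vertex. -/
def ZZ : Type := {ζ : W → J // ∀ k, k ≠ j₀ → ¬ ∃ g : Fin (r k + 1) → W, (∀ i, ζ (g i) = k) ∧
  ∀ i j, i ≠ j → (C k).Adj (g i) (g j)}

/-- The typed graph of the construction. -/
def FF (k : J) : SimpleGraph (W ⊕ (ZZ C r j₀ × Fin (r j₀ + 2))) where
  Adj
    | Sum.inl a, Sum.inl b => (C k).Adj a b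
    | Sum.inl a, Sum.inr q => q.1.1 a = k ∧ k ≠ j₀
    | Sum.inr q, Sum.inl a => q.1.1 a = k ∧ k ≠ j₀
    | Sum.inr p, Sum.inr q => k = j₀ ∧ p.1 = q.1 ∧ p.2 ≠ q.2
  symm := ⟨by
    rintro (a | a) (b | b) h
    exacts [h.symm, h, h, ⟨h.1, h.2.1.symm, h.2.2.symm⟩]⟩
  loopless := ⟨by
    rintro (a | a) h
    exacts [h.ne rfl, h.2.2 rfl]⟩

variable {C r j₀}

theorem FF_disj (h : Disj C) : Disj (FF C r j₀) := by
  rintro σ τ (a | a) (b | b) h1 h2
  exacts [h σ τ a b h1 h2, h1.1.symm.trans h2.1, h1.1.symm.trans h2.1, h1.1.trans h2.1.symm]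

theorem FF_free {k : J} (hk : k ≠ j₀) (h : ¬ HasK (C k) (r k + 2)) :
    ¬ HasK (FF C r j₀ k) (r k + 2) := by
  rintro ⟨f, hf⟩
  by_cases hl : ∀ i, ∃ a, f i = Sum.inl a
  · choose g hg using hl
    refine h ⟨g, fun i j hij => ?_⟩
    have := hf i j hij
    rwa [hg, hg] at this
  · obtain ⟨i0, q, hq⟩ : ∃ i0 q, f i0 = Sum.inr q := by
      by_contra hc
      refine hl fun i => ?_
      rcases e : f i with a | q
      exacts [⟨a, rfl⟩, absurd ⟨i, q, e⟩ hc]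
    have hr : ∀ j : Fin (r k + 1), ∃ a, f (i0.succAbove j) = Sum.inl a ∧ q.1.1 a = k := by
      intro j
      have := hf i0 (i0.succAbove j) (Fin.succAbove_ne i0 j).symm
      rw [hq] at this
      rcases e : f (i0.succAbove j) with a | q' <;> rw [e] at this
      exacts [⟨a, rfl, this.1⟩, absurd this.1 hk]
    choose g hg using hr
    refine q.1.2 k hk ⟨g, fun j => (hg j).2, fun i j hij => ?_⟩
    have := hf (i0.succAbove i) (i0.succAbove j) (fun e => hij (Fin.succAbove_right_injective e))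
    rwa [(hg i).1, (hg j).1] at this

theorem FF_noPend (h : ¬ HasK (C j₀) (r j₀ + 2)) : NoPend (FF C r j₀ j₀) (r j₀ + 2) := by
  intro f hf i w hw
  have hr : ∀ j, ∃ q, f j = Sum.inr q := fun j0 => by
    rcases e0 : f j0 with a0 | q
    swap
    · exact ⟨q, rfl⟩
    have hl : ∀ j, ∃ a, f j = Sum.inl a := fun j => by
      by_cases hj : j = j0
      · exact ⟨a0, hj ▸ e0⟩
      · have := hf j j0 hj
        rcases e : f j with a | q
        · exact ⟨a, rfl⟩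
        · rw [e, e0] at this
          exact absurd rfl this.2
    choose g hg using hl
    refine absurd ⟨g, fun i j hij => ?_⟩ h
    have := hf i j hij
    rwa [hg, hg] at this
  choose g hg using hr
  have hadj : ∀ i j, i ≠ j → (g i).1 = (g j).1 ∧ (g i).2 ≠ (g j).2 := fun i j hij => by
    have := hf i j hij
    rw [hg, hg] at this
    exact this.2
  have hs := Finite.injective_iff_surjective.mp (show Function.Injective fun j => (g j).2 from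
    fun a b e => by_contra fun hab => (hadj a b hab).2 e)
  rw [hg] at hw
  rcases w with a | q
  · exact absurd rfl hw.2
  · obtain ⟨j, hj⟩ := hs q.2
    refine ⟨j, (hg j).trans (congrArg _ (Prod.ext ?_ hj))⟩
    by_cases hij : j = i
    · rw [hij]
      exact hw.2.1
    · exact (hadj j i hij).1.trans hw.2.1

theorem core {U : J → Type} {Y : ∀ k, J → SimpleGraph (U k)}
    (hY : ∀ k, ∀ c : U k → Fin (r j₀ + 2) × J, ∃ y, ∀ l, l ≠ k → ∃ g : Fin (r l + 1) → U k,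
      (∀ i j, i ≠ j → (Y k l).Adj (g i) (g j)) ∧ ∀ i, c (g i) = c y)
    (R : J → SimpleGraph (W ⊕ (ZZ C r j₀ × Fin (r j₀ + 2))))
    (hcov : ∀ k a b, (FF C r j₀ k).Adj a b → ∃ l, (R l).Adj a b) (Z : ZZ C r j₀)
    (φ : ∀ k, U k × Fin (r k) → W) (hφ : ∀ k p, Z.1 (φ k p) = k)
    (h1 : ∀ k y i j, i ≠ j → (R k).Adj (Sum.inl (φ k (y, i))) (Sum.inl (φ k (y, j))))
    (h2 : ∀ k l y y' i j, (Y k l).Adj y y' →
      (R l).Adj (Sum.inl (φ k (y, i))) (Sum.inl (φ k (y', j)))) :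
    ∃ l, HasK (R l) (r l + 2) := by
  by_cases hall : ∀ i j, i ≠ j → (R j₀).Adj (Sum.inr (Z, i)) (Sum.inr (Z, j))
  · exact ⟨j₀, fun i => Sum.inr (Z, i), hall⟩
  push Not at hall
  obtain ⟨i, j, hij, hn⟩ := hall
  obtain ⟨k, hk⟩ := hcov j₀ (Sum.inr (Z, i)) (Sum.inr (Z, j)) ⟨rfl, rfl, hij⟩
  have hk0 : k ≠ j₀ := fun e => hn (e ▸ hk)
  by_cases hy : ∃ y, ∀ a, (R k).Adj (Sum.inr (Z, i)) (Sum.inl (φ k (y, a))) ∧
      (R k).Adj (Sum.inr (Z, j)) (Sum.inl (φ k (y, a)))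
  · obtain ⟨y, hy⟩ := hy
    refine ⟨k, _, clique_cons (v := Sum.inr (Z, i))
      (clique_cons (v := Sum.inr (Z, j)) (g := fun a => Sum.inl (φ k (y, a))) (h1 k y)
        (fun a => (hy a).2)) fun a => ?_⟩
    induction a using Fin.cases with
    | zero => exact hk
    | succ a => exact (hy a).1
  · have : ∀ y, ∃ a, ∃ x : Fin (r j₀ + 2) × J, x.2 ≠ k ∧
        (R x.2).Adj (Sum.inr (Z, x.1)) (Sum.inl (φ k (y, a))) := fun y => by
      obtain ⟨a, ha⟩ := not_forall.1 (not_exists.1 hy y)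
      obtain ⟨w, hw⟩ : ∃ w, ¬ (R k).Adj (Sum.inr (Z, w)) (Sum.inl (φ k (y, a))) :=
        (not_and_or.1 ha).elim (fun h => ⟨i, h⟩) fun h => ⟨j, h⟩
      obtain ⟨l, hl⟩ := hcov k (Sum.inr (Z, w)) (Sum.inl (φ k (y, a))) ⟨hφ _ _, hk0⟩
      exact ⟨a, (w, l), fun e => hw (e ▸ hl), hl⟩
    choose a c h3 h4 using this
    obtain ⟨y, hy⟩ := hY k c
    obtain ⟨g, g1, g2⟩ := hy _ (h3 y)
    exact ⟨(c y).2, _, clique_cons (v := Sum.inr (Z, (c y).1))
      (g := fun m => Sum.inl (φ k (g m, a (g m)))) (fun m m' h => h2 _ _ _ _ _ _ (g1 m m' h))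
      fun m => g2 m ▸ h4 (g m)⟩

end Construction

/-- Blow-up of a typed graph by cliques of type `k`. -/
def SS {U : Type} (Y : J → SimpleGraph U) (n : ℕ) (k σ : J) : SimpleGraph (U × Fin n) where
  Adj p q := (σ = k ∧ p.1 = q.1 ∧ p.2 ≠ q.2) ∨ (Y σ).Adj p.1 q.1
  symm := ⟨fun _ _ h => h.imp (fun h => ⟨h.1, h.2.1.symm, h.2.2.symm⟩) Adj.symm⟩
  loopless := ⟨fun _ h => h.elim (fun h => h.2.2 rfl) fun h => h.ne rfl⟩

theorem gadget [Finite J] {t : J → ℕ} (ht : ∀ j, 3 ≤ t j) (j₀ : J) :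
    ∃ (W : Type) (_ : Finite W) (F : SimpleGraph W) (χ : Sym2 W → J), AK F t univ ∧
      (∀ j, j ≠ j₀ → ¬ HasK (cg F χ j) (t j)) ∧ NoPend (cg F χ j₀) (t j₀) := by
  obtain ⟨r, rfl⟩ : ∃ r : J → ℕ, t = fun j => r j + 2 :=
    ⟨fun j => t j - 2, funext fun j => by
      have := ht j
      show t j = t j - 2 + 2
      omega⟩
  have hr : ∀ j, 1 ≤ r j := fun j => by
    have : 3 ≤ r j + 2 := ht j
    omega
  have : Nonempty J := ⟨j₀⟩
  choose U hU Y y1 y2 y3 y4 using vfolk hr (Fin (r j₀ + 2) × J)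
  let n : J → J → ℕ := fun i i' => if i = i' then r i + 1 else r i + 2
  have : Nonempty (Σ p : J × J, Fin (n p.1 p.2)) := ⟨⟨(j₀, j₀), 0, by simp [n]⟩⟩
  have hB : Disj fun σ => TC n σ ⊕g sig fun k => SS (Y k) (r k) k σ :=
    disj_sum (disj_TC n) (disj_sig (A := fun k σ => SS (Y k) (r k) k σ) fun k => by
      rintro σ τ p q (a | a) (b | b)
      exacts [a.1.trans b.1.symm, absurd a.2.1 b.ne, absurd b.2.1 a.ne, y1 k σ τ _ _ a b])
  have sk : ∀ k, ¬ HasK (SS (Y k) (r k) k k) (r k + 1) := fun k h =>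
    Sa_free (U k) (r k) (h.mono fun p q e => (e.resolve_right (y2 k _ _)).2)
  obtain ⟨W, hW, C, hD, hI, hC⟩ := nesetril_rodl J _ hB
  have hf : ∀ σ, ¬ HasK (C σ) (r σ + 2) := fun σ h => by
    rcases hasK_sum (hasK_of_irr hI h) with h | h
    · refine TC_free (ht σ) (by simp [n]) (fun i' => ?_) h
      simp only [n]
      split_ifs <;> omega
    · obtain ⟨k, h⟩ := hasK_sig (by omega) h
      by_cases e : σ = k
      · subst e
        exact sk σ (h.le (by omega))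
      · exact y3 k σ (h.map Prod.fst fun p q a => a.resolve_left fun a => e a.1)
  have : Finite (ZZ C r j₀) := by unfold ZZ; infer_instance
  obtain ⟨ψ, hψ⟩ := exists_typ (FF_disj (r := r) (j₀ := j₀) hD)
  refine ⟨_, inferInstance, _, ψ, fun χ _ => ?_, fun j hj => (hψ j).symm ▸ FF_free hj (hf j),
    (hψ j₀).symm ▸ FF_noPend (hf j₀)⟩
  obtain ⟨φ, hφ, ha, d, hd⟩ := hC (fun a b => χ s(Sum.inl a, Sum.inl b)) fun a b => by
    rw [Sym2.eq_swap]
  have col : ∀ σ u v, (TC n σ ⊕g sig fun k => SS (Y k) (r k) k σ).Adj u v →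
      (cg (⨆ τ, FF C r j₀ τ) χ (d σ)).Adj (Sum.inl (φ u)) (Sum.inl (φ v)) := fun σ u v h =>
    ⟨iSup_adj.2 ⟨σ, (ha σ u v).2 h⟩, hd σ u v h⟩
  have full : ∀ i i', d i' = d i → r (d i) + 2 ≤ n i i' →
      ∃ j, HasK (cg (⨆ τ, FF C r j₀ τ) χ j) (r j + 2) := fun i i' e h =>
    ⟨d i, (TC_full (H := cg (⨆ τ, FF C r j₀ τ) χ (d i)) (φ := fun u => Sum.inl (φ (Sum.inl u)))
      (i := i) (i' := i') fun σ hσ u v h' => by
        have := col σ (Sum.inl u) (Sum.inl v) h'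
        rcases hσ with rfl | rfl
        exacts [this, e ▸ this]).le h⟩
  by_cases c1 : ∃ j, r (d j) < r j
  · obtain ⟨j, a⟩ := c1
    exact full j j rfl (by simp only [n, if_true]; omega)
  have mono : ∀ j, r j ≤ r (d j) := fun j => not_lt.1 fun h => c1 ⟨j, h⟩
  by_cases c2 : InjOn d univ
  swap
  · obtain ⟨i, -, i', -, a1, a2, a3⟩ := collide r d univ (mapsTo_univ _ _) (fun j _ => mono j) c2
    exact full i i' a2.symm (by simp only [n, if_neg a1, a3, le_refl])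
  have hb : Function.Bijective d := Finite.injective_iff_bijective.1 (injOn_univ.1 c2)
  have := Fintype.ofFinite J
  have he : ∀ j, r j = r (d j) := fun j => (Finset.sum_eq_sum_iff_of_le fun j _ => mono j).1
    (hb.sum_comp r).symm j (Finset.mem_univ j)
  let ζ : W → J := Function.extend φ (Sum.elim (fun _ => j₀) Sigma.fst) fun _ => j₀
  have hζ : ∀ k p, ζ (φ (Sum.inr ⟨k, p⟩)) = k := fun k p => hφ.extend_apply _ _ _
  obtain ⟨l, hl⟩ := core y4 (fun l => cg (⨆ τ, FF C r j₀ τ) χ (d l))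
    (fun k a b h => (hb.2 (χ s(a, b))).imp fun l e => ⟨iSup_adj.2 ⟨k, h⟩, e.symm⟩)
    ⟨ζ, by
      rintro k hk ⟨g, g1, g2⟩
      have : ∀ i, ∃ p, φ (Sum.inr ⟨k, p⟩) = g i := fun i => by
        have e := g1 i
        by_cases h : ∃ x, φ x = g i
        · obtain ⟨x | ⟨k', p⟩, hx⟩ := h
          · rw [← hx] at e
            exact absurd ((hφ.extend_apply _ _ _).symm.trans e).symm hk
          · rw [← hx, hζ] at e
            subst e
            exact ⟨p, hx⟩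
        · exact absurd ((Function.extend_apply' _ _ _ h).symm.trans e).symm hk
      choose p hp using this
      refine sk k ⟨p, fun i j hij => ?_⟩
      have := g2 i j hij
      rw [← hp, ← hp] at this
      exact (sig_adj (A := fun k' => SS (Y k') (r k') k' k)).1 ((ha k _ _).1 this)⟩
    (fun k p => φ (Sum.inr ⟨k, p⟩)) hζ
    (fun k y i j h => col k _ _ ⟨k, (y, i), (y, j), rfl, rfl, Or.inl ⟨rfl, rfl, h⟩⟩)
    fun k l y y' i j h => col l _ _ ⟨k, (y, i), (y', j), rfl, rfl, Or.inr h⟩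
  refine ⟨d l, ?_⟩
  show HasK _ (r (d l) + 2)
  rw [← he l]
  exact hl

end Pool.Agent.Work.MP_683e5e_co.Hedge
end

-- merged part: Pool.Agent.Work.MP_683e5e_co.Hedge.Main
section
/-! The structure of tuples that are Ramsey equivalent to a tuple of cliques. -/

set_option autoImplicit false

namespace Pool.Agent.Work.MP_683e5e_co.Hedge

open Classical SimpleGraph Set

variable {I J U W : Type} {V : I → Type} {t : J → ℕ} {G : ∀ i, SimpleGraph (V i)}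

theorem AG.mono {F : SimpleGraph U} {F' : SimpleGraph W} (h : AG F G) (hs : Sub F F') :
    AG F' G := fun χ => by
  obtain ⟨f, hf, hf'⟩ := hs
  obtain ⟨i, hi⟩ := h fun e => χ (e.map f)
  exact ⟨i, hi.trans ⟨f, hf, fun u v e => ⟨hf' u v e.1, e.2⟩⟩⟩

theorem of_fin (h : ∀ (k : ℕ) (F : SimpleGraph (Fin k)), AG F G ↔ AK F t univ) (W : Type)
    [Finite W] (F : SimpleGraph W) : AG F G ↔ AK F t univ := by
  have := Fintype.ofFinite W
  let e := (Fintype.equivFin W).symm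
  have s1 : Sub (F.comap e) F := ⟨e, e.injective, fun _ _ a => a⟩
  have s2 : Sub F (F.comap e) := ⟨e.symm, e.symm.injective, fun _ _ a => by simpa using a⟩
  exact ⟨fun a => ((h _ (F.comap e)).1 (a.mono s2)).of_hom e fun _ _ a => a,
    fun a => ((h _ (F.comap e)).2 (a.of_hom e.symm fun _ _ a => by simpa using a)).mono s1⟩

theorem label_iff [Nonempty I] (F : SimpleGraph W) (P : I → SimpleGraph W → Prop) :
    (∀ C : F.EdgeLabeling I, ∃ i, P i (C.labelGraph i)) ↔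
      ∀ χ : Sym2 W → I, ∃ i, P i (cg F χ i) := by
  refine ⟨fun h χ => ?_, fun h C => ?_⟩
  · obtain ⟨i, hi⟩ := h fun e => χ e.1
    refine ⟨i, ?_⟩
    have : cg F χ i = EdgeLabeling.labelGraph (G := F) (fun e => χ e.1) i := by
      ext u v
      rw [EdgeLabeling.labelGraph_adj]
      exact ⟨fun a => ⟨a.1, a.2⟩, fun ⟨a, b⟩ => ⟨a, b⟩⟩
    rwa [this]
  · obtain ⟨i, hi⟩ := h fun e => if a : e ∈ F.edgeSet then C ⟨e, a⟩ else Classical.arbitrary I
    refine ⟨i, ?_⟩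
    have : C.labelGraph i =
        cg F (fun e => if a : e ∈ F.edgeSet then C ⟨e, a⟩ else Classical.arbitrary I) i := by
      ext u v
      rw [EdgeLabeling.labelGraph_adj]
      exact ⟨fun ⟨a, b⟩ => ⟨a, (dif_pos a).trans b⟩, fun ⟨a, b⟩ => ⟨a, (dif_pos a).symm.trans b⟩⟩
    rwa [this]

theorem contained_iff (H : SimpleGraph U) (F : SimpleGraph W) : H ⊑ F ↔ Sub H F :=
  ⟨fun ⟨f⟩ => (sub_iff_hom H F).1 ⟨f.toHom, f.injective⟩,
    fun h => ((sub_iff_hom H F).2 h).elim fun f hf => ⟨⟨f, hf⟩⟩⟩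

theorem clique_fun {H : SimpleGraph U} {n : ℕ} {S : Finset U} (h : H.IsNClique n S) :
    ∃ f : Fin n → U, (∀ i j, i ≠ j → H.Adj (f i) (f j)) ∧ ∀ u, u ∈ S ↔ u ∈ range f := by
  let e := (S.equivFinOfCardEq h.card_eq).symm
  refine ⟨fun i => e i, fun i j hij => h.isClique (e i).2 (e j).2 fun a =>
    hij (e.injective (Subtype.ext a)), fun u => ⟨fun a => ⟨e.symm ⟨u, a⟩, by simp⟩, ?_⟩⟩
  rintro ⟨i, rfl⟩
  exact (e i).2

theorem fun_clique {H : SimpleGraph U} {n : ℕ} (h : HasK H n) : ∃ S, H.IsNClique n S := by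
  obtain ⟨f, hf⟩ := h
  refine ⟨Finset.univ.map ⟨f, clique_inj hf⟩, ?_, by simp⟩
  intro u a v b huv
  obtain ⟨i, -, rfl⟩ := Finset.mem_map.1 a
  obtain ⟨j, -, rfl⟩ := Finset.mem_map.1 b
  exact hf i j fun e => huv (e ▸ rfl)

theorem main [Finite I] [Finite J] [Nonempty I] [Nonempty J] [∀ i, Finite (V i)]
    (ht : ∀ j, 3 ≤ t j)
    (h : ∀ (W : Type) [Finite W] (F : SimpleGraph W), AG F G ↔ AK F t univ) :
    ∃ σ : J ↪ I, (∀ j, ∃ S, (G (σ j)).IsNClique (t j) S ∧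
      (∀ u ∈ S, ∀ v, (G (σ j)).Adj u v → v ∈ S) ∧ ∀ S', (G (σ j)).IsNClique (t j) S' → S' = S) ∧
      ∀ i, i ∉ range σ → (G i).edgeSet.ncard = 1 := by
  have ed : ∀ i, ∃ u v, (G i).Adj u v := fun i => by
    by_contra hc
    obtain ⟨j, hj⟩ := (h (V i) ⊥).1
      (fun _ => ⟨i, id, Function.injective_id, fun u v a => absurd ⟨u, v, a⟩ hc⟩)
      (fun _ => Classical.arbitrary J) fun _ _ _ => trivial
    obtain ⟨u, v, a⟩ := HasK.edge hj ((ht j).trans' (by omega))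
    exact a.1
  have : ∀ i, Nonempty (V i) := fun i => (ed i).elim fun u _ => ⟨u⟩
  obtain ⟨c, hc⟩ := incl ht fun W _ F => (h W F).1
  have ci := fib_inj ht (fun W _ F => (h W F).2) hc
  have oe := fun i => (gadget ht (Classical.arbitrary J)).elim fun W a => a.elim fun _ a =>
    a.elim fun _ a => a.elim fun _ a => (⟨W, one_edge ht a.1 (fun F => (h W F).2) hc i⟩ :
    ∃ (W : Type) (F : SimpleGraph W) (e : Sym2 W) (χ : Sym2 W → J) (g : V i → W),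
      Function.Injective g ∧ (∀ j, ¬ HasK (cg F χ j) (t j)) ∧
      ∀ u v, (G i).Adj u v → s(g u, g v) = e ∨ (cg F (c ∘ χ) i).Adj (g u) (g v))
  refine ⟨⟨c, ci⟩, fun j => ?_, fun i hi => ?_⟩
  · have k1 : HasK (G (c j)) (t j) := by
      obtain ⟨j', hj⟩ := hc (c j) (fun _ => j) fun _ _ _ => rfl
      obtain ⟨u, v, a⟩ := HasK.edge hj ((ht j').trans' (by omega))
      obtain rfl : j = j' := a.2
      exact hj.mono fun _ _ a => a.1
    have k2 : NoPend (G (c j)) (t j) := by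
      obtain ⟨W, _, F, χ, h1, h2, h3⟩ := gadget ht j
      obtain ⟨i, hi⟩ := (h W F).2 h1 (c ∘ χ)
      obtain ⟨j', rfl, hj⟩ := fib ht (hc i) hi
      obtain rfl : j' = j := by_contra fun e => h2 j' e hj
      obtain ⟨g, g1, g2⟩ := hi
      have g3 : ∀ u v, (G (c j')).Adj u v → (cg F χ j').Adj (g u) (g v) :=
        fun u v a => ⟨(g2 u v a).1, ci (g2 u v a).2⟩
      intro f hf a w hw
      obtain ⟨b, hb⟩ := h3 (g ∘ f) (fun a b e => g3 _ _ (hf a b e)) a (g w) (g3 _ _ hw)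
      exact ⟨b, g1 hb⟩
    have k3 : ∀ S, (G (c j)).IsNClique (t j) S → ∀ u ∈ S, ∀ v, (G (c j)).Adj u v → v ∈ S := by
      intro S hS u hu v a
      obtain ⟨f, f1, f2⟩ := clique_fun hS
      obtain ⟨x, rfl⟩ := (f2 u).1 hu
      exact (f2 v).2 (k2 f f1 x v a)
    obtain ⟨W, F, e, χ, g, g1, g2, g3⟩ := oe (c j)
    have k4 : ∀ S, (G (c j)).IsNClique (t j) S → ∃ u ∈ S, ∃ v ∈ S, s(g u, g v) = e := by
      intro S hS
      obtain ⟨f, f1, f2⟩ := clique_fun hS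
      by_contra hn
      refine g2 j ⟨g ∘ f, fun a b x => ?_⟩
      have := (g3 _ _ (f1 a b x)).resolve_left fun y =>
        hn ⟨_, (f2 _).2 ⟨a, rfl⟩, _, (f2 _).2 ⟨b, rfl⟩, y⟩
      exact ⟨this.1, ci this.2⟩
    have k5 : ∀ S S', (G (c j)).IsNClique (t j) S → (G (c j)).IsNClique (t j) S' → S' ⊆ S := by
      intro S S' hS hS' w hw
      obtain ⟨u, hu, v, hv, a⟩ := k4 S hS
      obtain ⟨u', hu', v', hv', a'⟩ := k4 S' hS'
      have hx : u' ∈ S := by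
        rcases Sym2.eq_iff.1 (a.trans a'.symm) with b | b
        exacts [g1 b.1 ▸ hu, g1 b.2 ▸ hv]
      by_cases b : u' = w
      exacts [b ▸ hx, k3 S hS u' hx w (hS'.isClique hu' hw b)]
    obtain ⟨S, hS⟩ := fun_clique k1
    exact ⟨S, hS, k3 S hS, fun S' hS' => (k5 S S' hS hS').antisymm (k5 S' S hS' hS)⟩
  · obtain ⟨W, F, e, χ, g, g1, g2, g3⟩ := oe i
    have k : ∀ u v, (G i).Adj u v → s(g u, g v) = e :=
      fun u v a => (g3 u v a).resolve_right fun b => hi ⟨_, b.2⟩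
    obtain ⟨u, v, a⟩ := ed i
    refine ncard_eq_one.2 ⟨s(u, v), eq_singleton_iff_unique_mem.2 ⟨a, fun x hx => ?_⟩⟩
    induction x using Sym2.ind with
    | h u' v' => exact Sym2.map.injective g1 ((k u' v' hx).trans (k u v a).symm)

end Pool.Agent.Work.MP_683e5e_co.Hedge
end
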